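import Pool.Agent.Run7.h473.MD.Iface3
import Pool.Agent.Helper112.Arith

/-!
# Project MD (helper473), piece THOL (helper379): absolute convergence and holomorphy of `T_M`
-/

set_option autoImplicit false

open Filter Topology

namespace Pool.Agent.Run7.h379.MD

open Pool.Agent.Run7.h473.MD Pool.Agent.N879.QM

noncomputable section

/-- powers of the divisor bound -/
lemma div_pow (c : ℕ) (η : ℝ) (hη : 0 < η) : ∃ C : ℝ, 0 < C ∧ ∀ n : ℕ, 1 ≤ n →
    (n.divisors.card : ℝ) ^ c ≤ C * (n : ℝ) ^ η := by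
  obtain ⟨C, hC0, hC⟩ := Pool.Agent.Helper112.divisor_bound (η / (c + 1)) (by positivity)
  refine ⟨C ^ c, by positivity, fun n hn => ?_⟩
  have hn1 : (1 : ℝ) ≤ n := by exact_mod_cast hn
  calc (n.divisors.card : ℝ) ^ c ≤ (C * (n : ℝ) ^ (η / (c + 1))) ^ c :=
        pow_le_pow_left₀ (by positivity) (hC n hn) c
    _ = C ^ c * ((n : ℝ) ^ (η / (c + 1) * c)) := by
        rw [mul_pow, ← Real.rpow_natCast ((n : ℝ) ^ (η / (c + 1))) c, ← Real.rpow_mul (by positivity)]
    _ ≤ C ^ c * (n : ℝ) ^ η := by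
        apply mul_le_mul_of_nonneg_left _ (by positivity)
        apply Real.rpow_le_rpow_of_exponent_le hn1
        rw [div_mul_eq_mul_div, div_le_iff₀ (by positivity)]
        nlinarith

open Classical in
/-- the majorant -/
def ww (k M : ℕ) (σ : ℝ) (n : Fin k → ℕ) : ℝ :=
  if (∀ j, 1 ≤ n j) ∧ IsSquare (M * ∏ j, n j) then ((∏ j, n j : ℕ) : ℝ) ^ (-σ) else 0

lemma ww_nonneg (k M : ℕ) (σ : ℝ) (n : Fin k → ℕ) : 0 ≤ ww k M σ n := by
  unfold ww
  split_ifs
  · positivity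
  · exact le_rfl

lemma prod_pos' {k : ℕ} {n : Fin k → ℕ} (hn : ∀ j, 1 ≤ n j) : 1 ≤ ∏ j, n j :=
  Finset.one_le_prod' fun j _ => hn j

lemma ww_summable (k M : ℕ) (hM : 1 ≤ M) (σ : ℝ) (hσ : 1 / 2 < σ) : Summable (ww k M σ) := by
  classical
  obtain ⟨C, hC0, hC⟩ := div_pow k ((σ - 1 / 2) / 2) (by linarith)
  have hs : Summable (fun m : ℕ => (m : ℝ) ^ (-(σ + 1 / 2) : ℝ)) :=
    Real.summable_nat_rpow.mpr (by linarith)
  have hM0 : (0 : ℝ) < M := by exact_mod_cast hM
  refine summable_of_sum_le (c := (M : ℝ) ^ σ * C * ∑' m : ℕ, (m : ℝ) ^ (-(σ + 1 / 2) : ℝ))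
    (fun n => ww_nonneg k M σ n) ?_
  intro u
  set u' : Finset (Fin k → ℕ) := u.filter fun n => (∀ j, 1 ≤ n j) ∧ IsSquare (M * ∏ j, n j) with hu'
  set b : (Fin k → ℕ) → ℕ := fun n => Nat.sqrt (M * ∏ j, n j) with hb
  have hb2 : ∀ n ∈ u', b n * b n = M * ∏ j, n j ∧ 1 ≤ b n := by
    intro n hn
    obtain ⟨_, hn1, a, ha⟩ := Finset.mem_filter.1 hn
    have h1 : b n = a := by
      rw [hb]
      simp only
      rw [ha, Nat.sqrt_eq]
    refine ⟨by rw [h1, ha], ?_⟩
    have h2 : 1 ≤ M * ∏ j, n j := Nat.one_le_iff_ne_zero.2 (by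
      have := prod_pos' hn1
      positivity)
    rw [h1, Nat.one_le_iff_ne_zero]
    rintro rfl
    omega
  have h1 : ∑ n ∈ u, ww k M σ n = ∑ n ∈ u', ((∏ j, n j : ℕ) : ℝ) ^ (-σ) := by
    rw [hu', Finset.sum_filter]
    exact Finset.sum_congr rfl fun n _ => rfl
  rw [h1, ← Finset.sum_fiberwise_of_maps_to (g := b) (t := u'.image b)
    fun n hn => Finset.mem_image_of_mem _ hn]
  have h2 : ∀ m ∈ u'.image b, ∑ n ∈ u' with b n = m, ((∏ j, n j : ℕ) : ℝ) ^ (-σ) ≤
      (M : ℝ) ^ σ * C * (m : ℝ) ^ (-(σ + 1 / 2) : ℝ) := by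
    intro m hm
    obtain ⟨n₀, hn₀, hn₀m⟩ := Finset.mem_image.1 hm
    have hm1 : 1 ≤ m := by
      rw [← hn₀m]
      exact (hb2 n₀ hn₀).2
    have hm0 : (0 : ℝ) < m := by exact_mod_cast hm1
    have h3 : ∀ n ∈ u'.filter fun n => b n = m, ((∏ j, n j : ℕ) : ℝ) ^ (-σ) =
        (M : ℝ) ^ σ * (m : ℝ) ^ (-(2 * σ)) := by
      intro n hn
      obtain ⟨hn1, hn2⟩ := Finset.mem_filter.1 hn
      have h4 := (hb2 n hn1).1
      rw [hn2] at h4
      have h5 : ((∏ j, n j : ℕ) : ℝ) = (m : ℝ) ^ (2 : ℝ) / M := by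
        rw [eq_div_iff hM0.ne', Real.rpow_two]
        have : ((m * m : ℕ) : ℝ) = ((M * ∏ j, n j : ℕ) : ℝ) := by rw [h4]
        rw [Nat.cast_mul, Nat.cast_mul] at this
        linarith [this, sq (m : ℝ), mul_comm (M : ℝ) ((∏ j, n j : ℕ) : ℝ)]
      rw [h5, Real.div_rpow (by positivity) hM0.le, ← Real.rpow_mul hm0.le, Real.rpow_neg hM0.le,
        div_inv_eq_mul, mul_comm]
      congr 2
      ring
    rw [Finset.sum_congr rfl h3, Finset.sum_const, nsmul_eq_mul]
    have h6 : ((u'.filter fun n => b n = m).card : ℝ) ≤ C * ((m * m : ℕ) : ℝ) ^ ((σ - 1 / 2) / 2) := by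
      have h7 : (u'.filter fun n => b n = m).card ≤ (m * m).divisors.card ^ k := by
        have h8 : (m * m).divisors.card ^ k = (Fintype.piFinset fun _ : Fin k => (m * m).divisors).card := by
          rw [Fintype.card_piFinset, Finset.prod_const, Finset.card_univ, Fintype.card_fin]
        rw [h8]
        refine Finset.card_le_card fun n hn => ?_
        obtain ⟨hn1, hn2⟩ := Finset.mem_filter.1 hn
        have h4 := (hb2 n hn1).1
        rw [hn2] at h4
        rw [Fintype.mem_piFinset]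
        intro j
        rw [Nat.mem_divisors]
        exact ⟨by rw [h4]; exact (Finset.dvd_prod_of_mem n (Finset.mem_univ j)).mul_left M,
          by positivity⟩
      calc ((u'.filter fun n => b n = m).card : ℝ) ≤ ((m * m).divisors.card : ℝ) ^ k := by
            exact_mod_cast h7
        _ ≤ _ := hC (m * m) (Nat.one_le_iff_ne_zero.2 (by positivity))
    have h9 : ((m * m : ℕ) : ℝ) ^ ((σ - 1 / 2) / 2) = (m : ℝ) ^ (σ - 1 / 2) := by
      have : ((m * m : ℕ) : ℝ) = (m : ℝ) ^ (2 : ℝ) := by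
        rw [Real.rpow_two]
        push_cast
        ring
      rw [this, ← Real.rpow_mul hm0.le]
      congr 1
      ring
    rw [h9] at h6
    calc ((u'.filter fun n => b n = m).card : ℝ) * ((M : ℝ) ^ σ * (m : ℝ) ^ (-(2 * σ))) ≤
        (C * (m : ℝ) ^ (σ - 1 / 2)) * ((M : ℝ) ^ σ * (m : ℝ) ^ (-(2 * σ))) :=
          mul_le_mul_of_nonneg_right h6 (by positivity)
      _ = (M : ℝ) ^ σ * C * ((m : ℝ) ^ (σ - 1 / 2) * (m : ℝ) ^ (-(2 * σ))) := by ring
      _ = _ := by
          rw [← Real.rpow_add hm0]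
          congr 2
          ring
  refine (Finset.sum_le_sum h2).trans ?_
  rw [← Finset.mul_sum]
  refine mul_le_mul_of_nonneg_left ?_ (by positivity)
  exact hs.sum_le_tsum _ fun m _ => by positivity

lemma af_nonneg (n : ℕ) : 0 ≤ af n := Finset.prod_nonneg fun p _ => by positivity

lemma af_le_one (n : ℕ) : af n ≤ 1 := by
  refine Finset.prod_le_one (fun p _ => by positivity) fun p _ => ?_
  rw [div_le_one (by positivity)]
  linarith

lemma norm_tmt_le {k M : ℕ} {s : Fin k → ℂ} {σ : ℝ} (h : ∀ j, σ ≤ (s j).re) (n : Fin k → ℕ) :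
    ‖tmt k M s n‖ ≤ ww k M σ n := by
  unfold tmt ww
  split_ifs with hn
  · rw [norm_mul, Complex.norm_real, Real.norm_eq_abs, abs_of_nonneg (af_nonneg _), norm_prod]
    have h1 : ∏ j, ‖(n j : ℂ) ^ (-(s j))‖ ≤ ((∏ j, n j : ℕ) : ℝ) ^ (-σ) := by
      push_cast
      rw [← Real.finsetProd_rpow _ _ fun j _ => Nat.cast_nonneg _]
      refine Finset.prod_le_prod (fun _ _ => norm_nonneg _) fun j _ => ?_
      have hj : 0 < n j := hn.1 j
      rw [Complex.norm_natCast_cpow_of_pos hj, Complex.neg_re]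
      exact Real.rpow_le_rpow_of_exponent_le (by exact_mod_cast hj) (by linarith [h j])
    calc af (M * ∏ j, n j) * ∏ j, ‖(n j : ℂ) ^ (-(s j))‖ ≤ 1 * ∏ j, ‖(n j : ℂ) ^ (-(s j))‖ :=
          mul_le_mul_of_nonneg_right (af_le_one _) (Finset.prod_nonneg fun _ _ => norm_nonneg _)
      _ ≤ _ := by rw [one_mul]; exact h1
  · simp

lemma exists_min {k : ℕ} (s : Fin k → ℂ) (h : ∀ j, 1 / 2 < (s j).re) :
    ∃ σ : ℝ, 1 / 2 < σ ∧ ∀ j, σ ≤ (s j).re := by
  rcases isEmpty_or_nonempty (Fin k) with hk | hk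
  · exact ⟨1, by norm_num, fun j => (hk.false j).elim⟩
  · obtain ⟨j₀, hj₀⟩ := Finite.exists_min fun j => (s j).re
    exact ⟨(s j₀).re, h j₀, hj₀⟩

theorem t_THOL : S_THOL := by
  intro k M s hM hs
  obtain ⟨σ, hσ, hσs⟩ := exists_min s hs
  refine ⟨Summable.of_nonneg_of_le (fun _ => norm_nonneg _) (fun n => norm_tmt_le hσs n)
    (ww_summable k M hM σ hσ), (σ - 1 / 2) / 2, by linarith, ?_⟩
  have hopen : IsOpen {ζ : ℂ | -((σ - 1 / 2) / 2) < ζ.re} :=
    isOpen_lt continuous_const Complex.continuous_re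
  unfold TM
  refine DifferentiableOn.const_mul ?_ _
  refine Complex.differentiableOn_tsum_of_summable_norm
    (u := ww k M (σ - (σ - 1 / 2) / 2)) (ww_summable k M hM _ (by linarith)) ?_ hopen ?_
  · intro n
    refine Differentiable.differentiableOn ?_
    unfold tmt
    split_ifs with hn
    · refine Differentiable.const_mul ?_ _
      refine Differentiable.fun_finsetProd fun j _ => ?_
      intro ζ
      have hj : (n j : ℂ) ≠ 0 := by
        have := hn.1 j
        exact_mod_cast (by omega : n j ≠ 0)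
      exact DifferentiableAt.const_cpow (by fun_prop) (Or.inl hj)
    · exact differentiable_const _
  · intro n ζ hζ
    have hζ' : -((σ - 1 / 2) / 2) < ζ.re := hζ
    refine norm_tmt_le (fun j => ?_) n
    rw [Complex.add_re]
    linarith [hσs j]

end

end Pool.Agent.Run7.h379.MD
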